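import Mathlib

set_option autoImplicit false

namespace Pool.Agent.Results.MP_68b5a7_an.FiveRectangles

/-! The unit square is cut into the two halves `[0, 1/2) × [0, 1)` and `[1/2, 1) × [0, 1)`.  The
right half is a torus `(ℝ / (1/2) ℤ) × (ℝ / ℤ)` on which the map is the translation by
`(t / 2, - t)`, except that the points of `[1 - t/2, 1) × [t, 1)` go to the left half.  The closed
orbit `y = - 2 x mod 1` of this translation meets that rectangle only in its corner
`(1 - t/2, t)`.  The point `((1 - t) / 2, t)` of the left half goes to `(1/2, 0)`, and from there on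
stays on that closed orbit, without ever meeting the corner. -/

/-- The map. -/
private noncomputable def T (t : ℝ) (p : ℝ × ℝ) : ℝ × ℝ :=
  if t ≤ p.2 then
    if p.1 < 1 - t / 2 then p + (t / 2, -t) else p + (t / 2 - 1, -t)
  else
    if p.1 < 1 / 2 then p + (0, 1 - t)
    else if p.1 < 1 - t / 2 then p + (t / 2, 1 - t) else p + (t / 2 - 1 / 2, 1 - t)

private lemma image_rect (a b c d v w : ℝ) :
    (fun p : ℝ × ℝ => p + (v, w)) '' (Set.Ico a b ×ˢ Set.Ico c d) =
      Set.Ico (a + v) (b + v) ×ˢ Set.Ico (c + w) (d + w) := by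
  ext ⟨x, y⟩
  simp only [Set.mem_image, Set.mem_prod, Set.mem_Ico, Prod.exists, Prod.mk_add_mk, Prod.mk.injEq]
  constructor
  · rintro ⟨x', y', ⟨⟨h1, h2⟩, h3, h4⟩, rfl, rfl⟩
    refine ⟨⟨?_, ?_⟩, ?_, ?_⟩ <;> linarith
  · rintro ⟨⟨h1, h2⟩, h3, h4⟩
    exact ⟨x - v, y - w, ⟨⟨by linarith, by linarith⟩, by linarith, by linarith⟩, by ring, by ring⟩

/-- From time one on, the orbit stays on the closed curve. -/
private lemma orbit {t : ℝ} (ht : Irrational t) (h0 : 0 < t) (h1 : t < 1) (n : ℕ) :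
    (T t)^[n + 1] ((1 - t) / 2, t) =
      (1 / 2 + Int.fract (n * t) / 2, Int.fract (-(n * t))) := by
  induction n with
  | zero =>
    simp only [Nat.cast_zero, zero_mul, zero_add, Function.iterate_one, neg_zero, Int.fract_zero,
      zero_div, add_zero]
    unfold T
    rw [if_pos (by simp), if_pos (by simp; linarith)]
    ext <;> simp <;> ring
  | succ n ih =>
    rw [Function.iterate_succ_apply', ih]
    have hf0 := Int.fract_nonneg ((n : ℝ) * t)
    have hf1 := Int.fract_lt_one ((n : ℝ) * t)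
    have hg0 := Int.fract_nonneg (-((n : ℝ) * t))
    have hg1 := Int.fract_lt_one (-((n : ℝ) * t))
    -- the two fractional parts add up to an integer
    obtain ⟨k, hk⟩ : ∃ k : ℤ, Int.fract ((n : ℝ) * t) + Int.fract (-((n : ℝ) * t)) = k :=
      ⟨-⌊(n : ℝ) * t⌋ - ⌊-((n : ℝ) * t)⌋, by
        rw [Int.fract, Int.fract]; push_cast; ring⟩
    have hk0 : (-1 : ℝ) < k := by rw [← hk]; linarith
    have hk2 : (k : ℝ) < 2 := by rw [← hk]; linarith
    have hk0' : -1 < k := by exact_mod_cast hk0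
    have hk2' : k < 2 := by exact_mod_cast hk2
    have hk1 : (k : ℝ) ≤ 1 := by
      have : k ≤ 1 := by omega
      exact_mod_cast this
    have hnext : ((n + 1 : ℕ) : ℝ) * t = n * t + t := by push_cast; ring
    -- the orbit never meets the corner
    have hcorner : Int.fract ((n : ℝ) * t) ≠ 1 - t := by
      intro h
      have h2 : ((n + 1 : ℕ) : ℝ) * t = ((⌊(n : ℝ) * t⌋ + 1 : ℤ) : ℝ) := by
        rw [hnext]
        have := Int.floor_add_fract ((n : ℝ) * t)
        push_cast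
        linarith
      have h3 : Irrational (((n + 1 : ℕ) : ℝ) * t) := by
        apply ht.natCast_mul
        omega
      rw [h2] at h3
      exact Int.not_irrational _ h3
    have hfr1 : ∀ m : ℤ, (Int.fract ((n : ℝ) * t) + t + m : ℝ) =
        (n * t + t) + ((m - ⌊(n : ℝ) * t⌋ : ℤ) : ℝ) := by
      intro m
      rw [Int.fract]; push_cast; ring
    have hfr2 : ∀ m : ℤ, (Int.fract (-((n : ℝ) * t)) - t + m : ℝ) =
        (-(n * t + t)) + ((m - ⌊-((n : ℝ) * t)⌋ : ℤ) : ℝ) := by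
      intro m
      rw [Int.fract]; push_cast; ring
    rw [hnext]
    unfold T
    rcases lt_or_ge (Int.fract ((n : ℝ) * t)) (1 - t) with hc | hc
    · have e1 : Int.fract ((n : ℝ) * t + t) = Int.fract ((n : ℝ) * t) + t := by
        have h := hfr1 0
        rw [Int.cast_zero, add_zero] at h
        rw [← Int.fract_add_intCast _ ((0 : ℤ) - ⌊(n : ℝ) * t⌋), ← h]
        exact Int.fract_eq_self.mpr ⟨by linarith, by linarith⟩
      rcases lt_or_ge (Int.fract (-((n : ℝ) * t))) t with hd | hd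
      · rw [if_neg (by simp; linarith), if_neg (by simp; linarith),
          if_pos (by simp; linarith)]
        have e2 : Int.fract (-((n : ℝ) * t + t)) = Int.fract (-((n : ℝ) * t)) - t + 1 := by
          have h := hfr2 1
          rw [Int.cast_one] at h
          rw [← Int.fract_add_intCast _ ((1 : ℤ) - ⌊-((n : ℝ) * t)⌋), ← h]
          exact Int.fract_eq_self.mpr ⟨by linarith, by linarith⟩
        rw [e1, e2]
        ext <;> simp <;> ring
      · rw [if_pos (by simp; linarith), if_pos (by simp; linarith)]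
        have e2 : Int.fract (-((n : ℝ) * t + t)) = Int.fract (-((n : ℝ) * t)) - t := by
          have h := hfr2 0
          rw [Int.cast_zero, add_zero] at h
          rw [← Int.fract_add_intCast _ ((0 : ℤ) - ⌊-((n : ℝ) * t)⌋), ← h]
          exact Int.fract_eq_self.mpr ⟨by linarith, by linarith⟩
        rw [e1, e2]
        ext <;> simp <;> ring
    · have hc' : 1 - t < Int.fract ((n : ℝ) * t) := lt_of_le_of_ne hc (Ne.symm hcorner)
      have hd : Int.fract (-((n : ℝ) * t)) < t := by linarith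
      rw [if_neg (by simp; linarith), if_neg (by simp; linarith), if_neg (by simp; linarith)]
      have e1 : Int.fract ((n : ℝ) * t + t) = Int.fract ((n : ℝ) * t) + t - 1 := by
        have h := hfr1 (-1)
        rw [Int.cast_neg, Int.cast_one, ← sub_eq_add_neg] at h
        rw [← Int.fract_add_intCast _ ((-1 : ℤ) - ⌊(n : ℝ) * t⌋), ← h]
        exact Int.fract_eq_self.mpr ⟨by linarith, by linarith⟩
      have e2 : Int.fract (-((n : ℝ) * t + t)) = Int.fract (-((n : ℝ) * t)) - t + 1 := by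
        have h := hfr2 1
        rw [Int.cast_one] at h
        rw [← Int.fract_add_intCast _ ((1 : ℤ) - ⌊-((n : ℝ) * t)⌋), ← h]
        exact Int.fract_eq_self.mpr ⟨by linarith, by linarith⟩
      rw [e1, e2]
      ext <;> simp <;> ring

/-- The distance bound on the closed curve. -/
private lemma far {t s : ℝ} (h0 : 0 < t) (h1 : t < 1) (hs0 : 0 ≤ s) (hs1 : s < 1) (a b : ℤ) :
    min (1 / 5) (5 / 4 * min t (1 - t) ^ 2) ≤
      ((s + t) / 2 + (a : ℝ)) ^ 2 + (-(s + t) + (b : ℝ)) ^ 2 := by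
  have hm0 : 0 < min t (1 - t) := lt_min h0 (by linarith)
  have hmt : min t (1 - t) ≤ t := min_le_left _ _
  have hmt' : min t (1 - t) ≤ 1 - t := min_le_right _ _
  by_cases hj : b + 2 * a = 0
  · -- the second difference is minus twice the first one
    have hb : (b : ℝ) = -2 * a := by
      have : b = -2 * a := by omega
      rw [this]; push_cast; ring
    apply (min_le_right _ _).trans
    rw [hb]
    have habs : min t (1 - t) / 2 ≤ |(s + t) / 2 + (a : ℝ)| := by
      rcases le_or_gt 0 a with ha | ha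
      · have ha' : (0 : ℝ) ≤ a := by exact_mod_cast ha
        exact (show min t (1 - t) / 2 ≤ (s + t) / 2 + (a : ℝ) by linarith).trans (le_abs_self _)
      · have ha' : (a : ℝ) ≤ -1 := by
          have : a ≤ -1 := by omega
          exact_mod_cast this
        exact (show min t (1 - t) / 2 ≤ -((s + t) / 2 + (a : ℝ)) by linarith).trans
          (neg_le_abs _)
    have hsq : (min t (1 - t) / 2) ^ 2 ≤ ((s + t) / 2 + (a : ℝ)) ^ 2 := by
      rw [← sq_abs ((s + t) / 2 + (a : ℝ))]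
      exact pow_le_pow_left₀ (by positivity) habs 2
    nlinarith [hsq]
  · apply (min_le_left _ _).trans
    have hj2 : (1 : ℝ) ≤ ((b + 2 * a : ℤ) : ℝ) ^ 2 := by
      have : (1 : ℤ) ≤ (b + 2 * a) ^ 2 := by
        have := Int.one_le_abs hj
        nlinarith [sq_abs (b + 2 * a), abs_nonneg (b + 2 * a)]
      exact_mod_cast this
    push_cast at hj2
    nlinarith [sq_nonneg (5 * ((s + t) / 2 + (a : ℝ)) - 2 * ((b : ℝ) + 2 * a)), hj2]

/-- For every irrational `t` with `0 < t < 1` the following exchange of five rectangles of the unit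
square is not recurrent: no iterate of the point `((1 - t) / 2, t)` comes back to it, in torus
distance, closer than `1 / √5` or `(√5 / 2) min (t, 1 - t)`, whichever is smaller.  `R` is the first
partition of the square, `S` the second one, `v` the list of translation vectors. -/
theorem result (t : ℝ) (ht : Irrational t) (h0 : 0 < t) (h1 : t < 1) :
    ∃ (R S : Fin 5 → Set (ℝ × ℝ)) (v : Fin 5 → ℝ × ℝ) (φ : ℝ × ℝ → ℝ × ℝ),
      R = ![Set.Ico 0 (1 - t / 2) ×ˢ Set.Ico t 1,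
            Set.Ico (1 - t / 2) 1 ×ˢ Set.Ico t 1,
            Set.Ico 0 (1 / 2) ×ˢ Set.Ico 0 t,
            Set.Ico (1 / 2) (1 - t / 2) ×ˢ Set.Ico 0 t,
            Set.Ico (1 - t / 2) 1 ×ˢ Set.Ico 0 t] ∧
      S = ![Set.Ico (t / 2) 1 ×ˢ Set.Ico 0 (1 - t),
            Set.Ico 0 (t / 2) ×ˢ Set.Ico 0 (1 - t),
            Set.Ico 0 (1 / 2) ×ˢ Set.Ico (1 - t) 1,
            Set.Ico ((1 + t) / 2) 1 ×ˢ Set.Ico (1 - t) 1,
            Set.Ico (1 / 2) ((1 + t) / 2) ×ˢ Set.Ico (1 - t) 1] ∧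
      v = ![(t / 2, -t), (t / 2 - 1, -t), (0, 1 - t), (t / 2, 1 - t), (t / 2 - 1 / 2, 1 - t)] ∧
      Pairwise (Function.onFun Disjoint R) ∧
      ⋃ r, R r = Set.Ico (0 : ℝ) 1 ×ˢ Set.Ico (0 : ℝ) 1 ∧
      Pairwise (Function.onFun Disjoint S) ∧
      ⋃ r, S r = Set.Ico (0 : ℝ) 1 ×ˢ Set.Ico (0 : ℝ) 1 ∧
      (∀ r, S r = (fun x => x + v r) '' R r) ∧
      (∀ r, ∀ x ∈ R r, φ x = x + v r) ∧
      ∀ N : ℕ, 1 ≤ N → ∀ k₁ k₂ : ℤ,
        min (1 / 5) (5 / 4 * min t (1 - t) ^ 2) ≤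
          ((φ^[N] ((1 - t) / 2, t)).1 - (1 - t) / 2 + (k₁ : ℝ)) ^ 2 +
            ((φ^[N] ((1 - t) / 2, t)).2 - t + (k₂ : ℝ)) ^ 2 := by
  refine ⟨_, _, _, T t, rfl, rfl, rfl, ?_, ?_, ?_, ?_, ?_, ?_, ?_⟩
  · intro r s hrs
    rw [Function.onFun, Set.disjoint_left]
    rintro ⟨x, y⟩ hx hy
    fin_cases r <;> fin_cases s <;> simp at hrs hx hy <;> linarith [hx.1.1, hx.1.2, hx.2.1,
      hx.2.2, hy.1.1, hy.1.2, hy.2.1, hy.2.2]
  · ext ⟨x, y⟩
    simp only [Set.mem_iUnion]
    constructor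
    · rintro ⟨r, hx⟩
      fin_cases r <;> simp at hx <;> obtain ⟨⟨hx1, hx2⟩, hx3, hx4⟩ := hx <;>
        refine ⟨⟨?_, ?_⟩, ?_, ?_⟩ <;> simp only <;> linarith
    · rintro ⟨⟨hx0, hx1⟩, hy0, hy1⟩
      simp only at hx0 hx1 hy0 hy1
      rcases lt_or_ge y t with hy | hy
      · rcases lt_or_ge x (1 / 2) with hx | hx
        · exact ⟨2, ⟨by simp only; linarith, by simp only; linarith⟩, hy0, hy⟩
        · rcases lt_or_ge x (1 - t / 2) with hc | hc
          · exact ⟨3, ⟨hx, hc⟩, hy0, hy⟩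
          · exact ⟨4, ⟨hc, hx1⟩, hy0, hy⟩
      · rcases lt_or_ge x (1 - t / 2) with hc | hc
        · exact ⟨0, ⟨hx0, hc⟩, hy, hy1⟩
        · exact ⟨1, ⟨hc, hx1⟩, hy, hy1⟩
  · intro r s hrs
    rw [Function.onFun, Set.disjoint_left]
    rintro ⟨x, y⟩ hx hy
    fin_cases r <;> fin_cases s <;> simp at hrs hx hy <;> linarith [hx.1.1, hx.1.2, hx.2.1,
      hx.2.2, hy.1.1, hy.1.2, hy.2.1, hy.2.2]
  · ext ⟨x, y⟩
    simp only [Set.mem_iUnion]
    constructor
    · rintro ⟨r, hx⟩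
      fin_cases r <;> simp at hx <;> obtain ⟨⟨hx1, hx2⟩, hx3, hx4⟩ := hx <;>
        refine ⟨⟨?_, ?_⟩, ?_, ?_⟩ <;> simp only <;> linarith
    · rintro ⟨⟨hx0, hx1⟩, hy0, hy1⟩
      simp only at hx0 hx1 hy0 hy1
      rcases lt_or_ge y (1 - t) with hy | hy
      · rcases lt_or_ge x (t / 2) with hc | hc
        · exact ⟨1, ⟨hx0, hc⟩, hy0, hy⟩
        · exact ⟨0, ⟨hc, hx1⟩, hy0, hy⟩
      · rcases lt_or_ge x (1 / 2) with hx | hx
        · exact ⟨2, ⟨hx0, hx⟩, hy, hy1⟩
        · rcases lt_or_ge x ((1 + t) / 2) with hc | hc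
          · exact ⟨4, ⟨hx, hc⟩, hy, hy1⟩
          · exact ⟨3, ⟨hc, hx1⟩, hy, hy1⟩
  · intro r
    fin_cases r
    · refine Eq.trans ?_ (image_rect 0 (1 - t / 2) t 1 (t / 2) (-t)).symm
      show Set.Ico (t / 2) (1 : ℝ) ×ˢ Set.Ico (0 : ℝ) (1 - t) = _
      congr 2 <;> ring
    · refine Eq.trans ?_ (image_rect (1 - t / 2) 1 t 1 (t / 2 - 1) (-t)).symm
      show Set.Ico (0 : ℝ) (t / 2) ×ˢ Set.Ico (0 : ℝ) (1 - t) = _
      congr 2 <;> ring
    · refine Eq.trans ?_ (image_rect 0 (1 / 2) 0 t 0 (1 - t)).symm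
      show Set.Ico (0 : ℝ) (1 / 2) ×ˢ Set.Ico (1 - t) (1 : ℝ) = _
      congr 2 <;> ring
    · refine Eq.trans ?_ (image_rect (1 / 2) (1 - t / 2) 0 t (t / 2) (1 - t)).symm
      show Set.Ico ((1 + t) / 2) (1 : ℝ) ×ˢ Set.Ico (1 - t) (1 : ℝ) = _
      congr 2 <;> ring
    · refine Eq.trans ?_ (image_rect (1 - t / 2) 1 0 t (t / 2 - 1 / 2) (1 - t)).symm
      show Set.Ico (1 / 2 : ℝ) ((1 + t) / 2) ×ˢ Set.Ico (1 - t) (1 : ℝ) = _
      congr 2 <;> ring
  · rintro r ⟨x, y⟩ hx
    fin_cases r <;> simp at hx <;> obtain ⟨⟨hx1, hx2⟩, hx3, hx4⟩ := hx <;> unfold T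
    · rw [if_pos (by simpa using hx3), if_pos (by simpa using hx2)]
      simp
    · rw [if_pos (by simpa using hx3), if_neg (by simp; linarith)]
      simp
    · rw [if_neg (by simp; linarith), if_pos (by simp; linarith)]
      simp
    · rw [if_neg (by simp; linarith), if_neg (by simp; linarith), if_pos (by simp; linarith)]
      simp
    · rw [if_neg (by simp; linarith), if_neg (by simp; linarith), if_neg (by simp; linarith)]
      simp
  · intro N hN k₁ k₂
    obtain ⟨n, rfl⟩ : ∃ n, N = n + 1 := ⟨N - 1, by omega⟩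
    rw [orbit ht h0 h1 n]
    have hf0 := Int.fract_nonneg ((n : ℝ) * t)
    have hf1 := Int.fract_lt_one ((n : ℝ) * t)
    obtain ⟨k, hk⟩ : ∃ k : ℤ, Int.fract ((n : ℝ) * t) + Int.fract (-((n : ℝ) * t)) = k :=
      ⟨-⌊(n : ℝ) * t⌋ - ⌊-((n : ℝ) * t)⌋, by
        rw [Int.fract, Int.fract]; push_cast; ring⟩
    have h := far h0 h1 hf0 hf1 k₁ (k + k₂)
    have e2 : Int.fract (-((n : ℝ) * t)) = k - Int.fract ((n : ℝ) * t) := by linarith
    simp only
    rw [e2]
    push_cast at h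
    have e3 : ((1 / 2 + Int.fract ((n : ℝ) * t) / 2 - (1 - t) / 2 + (k₁ : ℝ)) ^ 2 +
        ((k : ℝ) - Int.fract ((n : ℝ) * t) - t + (k₂ : ℝ)) ^ 2) =
        ((Int.fract ((n : ℝ) * t) + t) / 2 + (k₁ : ℝ)) ^ 2 +
          (-(Int.fract ((n : ℝ) * t) + t) + ((k : ℝ) + (k₂ : ℝ))) ^ 2 := by ring
    rw [e3]
    exact h

end Pool.Agent.Results.MP_68b5a7_an.FiveRectangles
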